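import Pool.Agent.helper37.RQ.OP

set_option autoImplicit false
set_option linter.unusedSectionVars false

open MeasureTheory Matrix
open scoped BigOperators ComplexConjugate
open Pool.Agent.helper98.RPB

namespace Pool.Agent.helper37.RQ

variable {X : Type} [Fintype X] [DecidableEq X]

/-- A unitary matrix does not change the scalar products. -/
theorem NO_iso (V : Matrix X X ℂ) (hV : Vᴴ * V = 1) (u w : X → ℂ) :
    star (V *ᵥ u) ⬝ᵥ (V *ᵥ w) = star u ⬝ᵥ w := by
  rw [Matrix.star_mulVec, ← Matrix.dotProduct_mulVec, Matrix.mulVec_mulVec, hV, Matrix.one_mulVec]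

theorem NO_move (V : Matrix X X ℂ) (u w : X → ℂ) :
    star (V *ᵥ u) ⬝ᵥ w = star u ⬝ᵥ (Vᴴ *ᵥ w) := by
  rw [Matrix.star_mulVec, ← Matrix.dotProduct_mulVec]

theorem NO_pow_eig (U : Matrix X X ℂ) (ψ : X → ℂ) (lam : ℂ) (heig : U *ᵥ ψ = lam • ψ) (k : ℕ) :
    (U ^ k) *ᵥ ψ = lam ^ k • ψ := by
  induction k with
  | zero => simp
  | succ k ih =>
    rw [pow_succ, ← Matrix.mulVec_mulVec, heig, Matrix.mulVec_smul, ih, smul_smul, pow_succ,
      mul_comm]

theorem NO_lam (U : Matrix X X ℂ) (hU : Uᴴ * U = 1) (ψ : X → ℂ) (hψ : ∑ x, ‖ψ x‖ ^ 2 = 1)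
    (lam : ℂ) (heig : U *ᵥ ψ = lam • ψ) : conj lam * lam = 1 := by
  have h1 := NO_iso U hU ψ ψ
  rw [heig, OP_self ψ, hψ] at h1
  have h2 : star (lam • ψ) ⬝ᵥ (lam • ψ) = conj lam * lam * (star ψ ⬝ᵥ ψ) := by
    rw [star_smul, smul_dotProduct, dotProduct_smul]
    simp only [smul_eq_mul]
    have : star lam = conj lam := rfl
    rw [this]; ring
  rw [h2, OP_self ψ, hψ] at h1
  simpa using h1

theorem NO_cs (u w : X → ℂ) (hu : ∑ x, ‖u x‖ ^ 2 = 1) :
    ‖star u ⬝ᵥ w‖ ^ 2 ≤ (star w ⬝ᵥ w).re := by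
  have h := OP_cs u w
  rw [hu, one_mul] at h
  rw [OP_self, Complex.ofReal_re]
  simpa [dotProduct] using h

theorem mass_le (U : Matrix X X ℂ) (hU : U ∈ Matrix.unitaryGroup X ℂ) (s : Finset X)
    (T₀ m : ℕ) (hm : 1 ≤ m) (δ : ℝ) (hδ : 0 ≤ δ)
    (hbl : ∀ i, 1 ≤ i → i < m → ∀ u v : X → ℂ,
      ‖∑ x, ∑ y, conj (u x) * cut s (U ^ (i * T₀)) x y * v y‖ ≤
        δ * (Real.sqrt (∑ x, ‖u x‖ ^ 2) * Real.sqrt (∑ y, ‖v y‖ ^ 2)))
    (ψ : X → ℂ) (hψ : ∑ x, ‖ψ x‖ ^ 2 = 1) (lam : ℂ) (heig : U *ᵥ ψ = fun x => lam * ψ x) :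
    ∑ x ∈ s, ‖ψ x‖ ^ 2 ≤ 1 / m + δ := by
  classical
  have heig' : U *ᵥ ψ = lam • ψ := heig
  have hUU : Uᴴ * U = 1 := (Matrix.mem_unitaryGroup_iff'.1 hU)
  have hUU' : U * Uᴴ = 1 := (Matrix.mem_unitaryGroup_iff.1 hU)
  have hlam := NO_lam U hUU ψ hψ lam heig'
  -- powers are unitary
  have hpow : ∀ k : ℕ, (U ^ k) * (U ^ k)ᴴ = 1 := by
    intro k
    have h := pow_mem hU k
    exact Matrix.mem_unitaryGroup_iff.1 h
  set φ : X → ℂ := fun x => if x ∈ s then ψ x else 0 with hφ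
  set β : ℝ := ∑ x ∈ s, ‖ψ x‖ ^ 2 with hβ
  have hβ0 : 0 ≤ β := Finset.sum_nonneg fun _ _ => by positivity
  have hφn : ∑ x, ‖φ x‖ ^ 2 = β := by
    rw [hβ, ← Finset.sum_filter_add_sum_filter_not Finset.univ (fun x => x ∈ s)]
    have h1 : ∑ x ∈ Finset.univ.filter (fun x => x ∈ s), ‖φ x‖ ^ 2 = ∑ x ∈ s, ‖ψ x‖ ^ 2 := by
      refine Finset.sum_congr (by ext x; simp) fun x hx => ?_
      simp [hφ, hx]
    have h2 : ∑ x ∈ Finset.univ.filter (fun x => ¬ x ∈ s), ‖φ x‖ ^ 2 = 0 := by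
      refine Finset.sum_eq_zero fun x hx => ?_
      rw [Finset.mem_filter] at hx
      simp [hφ, hx.2]
    rw [h1, h2, add_zero]
  have hψφ : star ψ ⬝ᵥ φ = (β : ℂ) := by
    rw [← hφn]
    push_cast
    refine Finset.sum_congr rfl fun x _ => ?_
    rw [Pi.star_apply]
    by_cases hx : x ∈ s
    · simp only [hφ, hx, if_true]
      have := Complex.conj_mul' (ψ x)
      simpa using this
    · simp [hφ, hx]
  set a : ℕ → X → ℂ := fun i => lam ^ (i * T₀) • (((U ^ (i * T₀))ᴴ) *ᵥ φ) with ha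
  have hlk : ∀ k : ℕ, conj lam ^ k * lam ^ k = 1 := fun k => by rw [← mul_pow, hlam, one_pow]
  have hψa : ∀ i, star ψ ⬝ᵥ a i = (β : ℂ) := by
    intro i
    simp only [ha]
    rw [dotProduct_smul, ← NO_move, NO_pow_eig U ψ lam heig', star_smul, smul_dotProduct, hψφ]
    simp only [smul_eq_mul, star_pow]
    have h1 : star lam = conj lam := rfl
    rw [h1]
    calc lam ^ (i * T₀) * (conj lam ^ (i * T₀) * (β : ℂ)) =
        (conj lam ^ (i * T₀) * lam ^ (i * T₀)) * β := by ring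
      _ = β := by rw [hlk, one_mul]
  have haa : ∀ i j, star (a i) ⬝ᵥ a j = conj lam ^ (i * T₀) * lam ^ (j * T₀) *
      (star φ ⬝ᵥ ((U ^ (i * T₀) * (U ^ (j * T₀))ᴴ) *ᵥ φ)) := by
    intro i j
    simp only [ha]
    rw [star_smul, smul_dotProduct, dotProduct_smul, NO_move, Matrix.conjTranspose_conjTranspose,
      Matrix.mulVec_mulVec]
    simp only [smul_eq_mul, star_pow]
    have h1 : star lam = conj lam := rfl
    rw [h1]; ring
  have haii : ∀ i, star (a i) ⬝ᵥ a i = (β : ℂ) := by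
    intro i
    rw [haa, hpow, Matrix.one_mulVec, OP_self, hφn, hlk, one_mul]
  have hlamn : ‖lam‖ = 1 := by
    have h1 : ‖conj lam * lam‖ = 1 := by rw [hlam, norm_one]
    rw [norm_mul, RCLike.norm_conj] at h1
    nlinarith [norm_nonneg lam]
  -- the off-diagonal terms
  have hcut : ∀ k : ℕ, star φ ⬝ᵥ ((U ^ k) *ᵥ φ) =
      ∑ x, ∑ y, conj (φ x) * cut s (U ^ k) x y * φ y := by
    intro k
    unfold dotProduct Matrix.mulVec
    refine Finset.sum_congr rfl fun x _ => ?_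
    unfold dotProduct
    rw [Finset.mul_sum]
    refine Finset.sum_congr rfl fun y _ => ?_
    rw [Pi.star_apply]
    have h1 : star (φ x) = conj (φ x) := rfl
    rw [h1]
    by_cases hx : x ∈ s
    · by_cases hy : y ∈ s
      · simp only [cut, Matrix.of_apply, hx, hy, and_self, if_true]
        ring
      · simp [hφ, hy]
    · simp [hφ, hx]
  have hoff : ∀ i j, i < j → j < m → ‖star (a j) ⬝ᵥ a i‖ ≤ δ * β := by
    intro i j hij hjm
    rw [haa, norm_mul, norm_mul, norm_pow, norm_pow, RCLike.norm_conj, hlamn, one_pow, one_pow,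
      one_mul, one_mul]
    have h1 : U ^ (j * T₀) * (U ^ (i * T₀))ᴴ = U ^ ((j - i) * T₀) := by
      have h2 : j * T₀ = (j - i) * T₀ + i * T₀ := by
        rw [← add_mul]; congr 1; omega
      rw [h2, pow_add, Matrix.mul_assoc, hpow, Matrix.mul_one]
    rw [h1, hcut]
    refine (hbl (j - i) (by omega) (by omega) φ φ).trans (le_of_eq ?_)
    rw [hφn, Real.mul_self_sqrt hβ0]
  have hoff' : ∀ i j, i < m → j < m → i ≠ j → (star (a i) ⬝ᵥ a j).re ≤ δ * β := by
    intro i j hi hj hij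
    rcases lt_or_gt_of_ne hij with h | h
    · have h1 : star (a i) ⬝ᵥ a j = conj (star (a j) ⬝ᵥ a i) := by
        have h2 := Matrix.star_dotProduct_star (a j) (star (a i))
        have h3 : conj (star (a j) ⬝ᵥ a i) = star (star (a j) ⬝ᵥ a i) := rfl
        rw [h3, ← Matrix.star_dotProduct]
      rw [h1, Complex.conj_re]
      exact (Complex.re_le_norm _).trans (hoff i j h hj)
    · exact (Complex.re_le_norm _).trans (hoff j i h hi)
  -- the sum
  set S : X → ℂ := ∑ i ∈ Finset.range m, a i with hS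
  have h1 : star ψ ⬝ᵥ S = ((m * β : ℝ) : ℂ) := by
    rw [hS, dotProduct_sum, Finset.sum_congr rfl fun i _ => hψa i]
    simp
  have h2 : (star S ⬝ᵥ S).re ≤ m * β + m * (m - 1) * (δ * β) := by
    have h3 : star S ⬝ᵥ S = ∑ i ∈ Finset.range m, ∑ j ∈ Finset.range m, star (a i) ⬝ᵥ a j := by
      rw [hS, star_sum, sum_dotProduct]
      exact Finset.sum_congr rfl fun i _ => dotProduct_sum _ _ _
    rw [h3, Complex.re_sum]
    have h4 : ∀ i ∈ Finset.range m, (∑ j ∈ Finset.range m, star (a i) ⬝ᵥ a j).re ≤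
        β + (m - 1) * (δ * β) := by
      intro i hi
      rw [Complex.re_sum, ← Finset.add_sum_erase _ _ hi, haii, Complex.ofReal_re]
      refine add_le_add_right ?_ _ |>.trans (le_of_eq rfl)
      refine (Finset.sum_le_card_nsmul _ _ (δ * β) fun j hj => ?_).trans (le_of_eq ?_)
      · rw [Finset.mem_erase, Finset.mem_range] at hj
        exact hoff' i j (Finset.mem_range.1 hi) hj.2 (Ne.symm hj.1)
      · rw [Finset.card_erase_of_mem hi, Finset.card_range, nsmul_eq_mul, Nat.cast_sub hm,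
          Nat.cast_one]
    refine (Finset.sum_le_card_nsmul _ _ _ h4).trans (le_of_eq ?_)
    rw [Finset.card_range, nsmul_eq_mul]; ring
  have h5 := NO_cs ψ S hψ
  rw [h1, Complex.norm_real, Real.norm_eq_abs, sq_abs] at h5
  have h6 := h5.trans h2
  have hm0 : (0 : ℝ) < m := by exact_mod_cast hm
  have hm1 : (1 : ℝ) ≤ m := by exact_mod_cast hm
  rcases eq_or_lt_of_le hβ0 with h0 | h0
  · rw [← h0]; positivity
  · have h7 : m * β ≤ 1 + (m - 1) * δ := by
      by_contra hcon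
      push_neg at hcon
      have : m * β * (1 + (m - 1) * δ) < m * β * (m * β) :=
        mul_lt_mul_of_pos_left hcon (by positivity)
      nlinarith
    have h8 : β ≤ (1 + (m - 1) * δ) / m := by
      rw [le_div_iff₀ hm0]; linarith
    refine h8.trans ?_
    rw [add_div]
    have h9 : (m - 1) * δ / m ≤ δ := by
      rw [div_le_iff₀ hm0]; nlinarith
    linarith

end Pool.Agent.helper37.RQ
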