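import Pool.Agent.helper98.RPB.Defs

set_option autoImplicit false

open MeasureTheory Matrix
open scoped BigOperators ComplexConjugate
open Pool.Agent.helper98.RPB

namespace Pool.Agent.helper37.RQ

variable {X : Type} [Fintype X] [DecidableEq X]

theorem OP_cs {Y : Type} [Fintype Y] (u w : Y → ℂ) :
    ‖∑ x, conj (u x) * w x‖ ^ 2 ≤ (∑ x, ‖u x‖ ^ 2) * ∑ x, ‖w x‖ ^ 2 := by
  have h1 : ‖∑ x, conj (u x) * w x‖ ≤ ∑ x, ‖u x‖ * ‖w x‖ := by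
    refine (norm_sum_le _ _).trans (le_of_eq ?_)
    refine Finset.sum_congr rfl fun x _ => ?_
    rw [norm_mul, RCLike.norm_conj]
  calc ‖∑ x, conj (u x) * w x‖ ^ 2 ≤ (∑ x, ‖u x‖ * ‖w x‖) ^ 2 :=
        pow_le_pow_left₀ (norm_nonneg _) h1 2
    _ ≤ (∑ x, ‖u x‖ ^ 2) * ∑ x, ‖w x‖ ^ 2 := Finset.sum_mul_sq_le_sq_mul_sq _ _ _

theorem OP_self (w : X → ℂ) : star w ⬝ᵥ w = ((∑ x, ‖w x‖ ^ 2 : ℝ) : ℂ) := by
  unfold dotProduct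
  push_cast
  refine Finset.sum_congr rfl fun x _ => ?_
  rw [Pi.star_apply]
  have := Complex.conj_mul' (w x)
  simpa using this

/-- `⟨u, C Cᴴ u⟩ = ‖Cᴴ u‖²`. -/
theorem OP_quad (C : Matrix X X ℂ) (u : X → ℂ) :
    star u ⬝ᵥ ((C * Cᴴ) *ᵥ u) = ((∑ x, ‖(Cᴴ *ᵥ u) x‖ ^ 2 : ℝ) : ℂ) := by
  rw [← OP_self, ← Matrix.mulVec_mulVec, Matrix.star_mulVec, Matrix.conjTranspose_conjTranspose,
    ← Matrix.dotProduct_mulVec]

theorem OP_trace (C : Matrix X X ℂ) :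
    Matrix.trace (C * Cᴴ) = ((∑ x, ∑ y, ‖C x y‖ ^ 2 : ℝ) : ℂ) := by
  unfold Matrix.trace
  push_cast
  refine Finset.sum_congr rfl fun x _ => ?_
  rw [Matrix.diag_apply, Matrix.mul_apply]
  refine Finset.sum_congr rfl fun y _ => ?_
  rw [Matrix.conjTranspose_apply]
  have := Complex.mul_conj' (C x y)
  simpa using this

theorem OP_le_trace (C : Matrix X X ℂ) (u : X → ℂ) :
    ∑ y, ‖(Cᴴ *ᵥ u) y‖ ^ 2 ≤ (∑ x, ‖u x‖ ^ 2) * ∑ x, ∑ y, ‖C x y‖ ^ 2 := by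
  rw [Finset.sum_comm, Finset.mul_sum]
  refine Finset.sum_le_sum fun y _ => ?_
  have h : (Cᴴ *ᵥ u) y = ∑ x, conj (C x y) * u x := by
    simp [Matrix.mulVec, dotProduct, Matrix.conjTranspose_apply]
  rw [h, mul_comm]
  exact OP_cs (fun x => C x y) u

open scoped ComplexOrder in
theorem OP_trace_nonneg (A : Matrix X X ℂ) (P : ℕ) :
    0 ≤ Matrix.trace ((A * Aᴴ) ^ P) :=
  ((Matrix.posSemidef_self_mul_conjTranspose A).pow P).trace_nonneg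

theorem trace_re_nonneg (A : Matrix X X ℂ) (P : ℕ) :
    0 ≤ (Matrix.trace ((A * Aᴴ) ^ P)).re := by
  exact (Complex.le_def.1 (OP_trace_nonneg A P)).1

theorem OP_herm (A : Matrix X X ℂ) (m : ℕ) : ((A * Aᴴ) ^ m)ᴴ = (A * Aᴴ) ^ m := by
  rw [Matrix.conjTranspose_pow, Matrix.conjTranspose_mul, Matrix.conjTranspose_conjTranspose]

/-- The chain of Cauchy-Schwarz inequalities. -/
theorem OP_chain (A : Matrix X X ℂ) (u : X → ℂ) (r : ℕ) :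
    (∑ x, ‖(Aᴴ *ᵥ u) x‖ ^ 2) ^ (2 ^ r) ≤
      (∑ x, ‖u x‖ ^ 2) ^ (2 ^ r - 1) * (star u ⬝ᵥ (((A * Aᴴ) ^ (2 ^ r)) *ᵥ u)).re := by
  induction r with
  | zero =>
    simp only [pow_zero, pow_one, Nat.sub_self, one_mul]
    rw [OP_quad, Complex.ofReal_re]
  | succ r ih =>
    set N : ℝ := ∑ x, ‖u x‖ ^ 2 with hN
    have hN0 : 0 ≤ N := Finset.sum_nonneg fun _ _ => by positivity
    set q : ℝ := (star u ⬝ᵥ (((A * Aᴴ) ^ (2 ^ r)) *ᵥ u)).re with hq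
    have h1 : q ^ 2 ≤ N * (star u ⬝ᵥ (((A * Aᴴ) ^ (2 ^ (r + 1))) *ᵥ u)).re := by
      have e1 : (A * Aᴴ) ^ (2 ^ (r + 1)) = (A * Aᴴ) ^ (2 ^ r) * ((A * Aᴴ) ^ (2 ^ r))ᴴ := by
        rw [OP_herm, ← pow_add]
        congr 1
        rw [pow_succ]; ring
      rw [e1, OP_quad, Complex.ofReal_re, OP_herm]
      have h2 : q ^ 2 ≤ ‖star u ⬝ᵥ (((A * Aᴴ) ^ (2 ^ r)) *ᵥ u)‖ ^ 2 := by
        rw [sq_le_sq, abs_of_nonneg (norm_nonneg _)]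
        exact Complex.abs_re_le_norm _
      refine h2.trans ?_
      have h3 := OP_cs u (((A * Aᴴ) ^ (2 ^ r)) *ᵥ u)
      simpa [dotProduct] using h3
    have hA0 : 0 ≤ ∑ x, ‖(Aᴴ *ᵥ u) x‖ ^ 2 := Finset.sum_nonneg fun _ _ => by positivity
    have h4 : (∑ x, ‖(Aᴴ *ᵥ u) x‖ ^ 2) ^ (2 ^ (r + 1)) =
        ((∑ x, ‖(Aᴴ *ᵥ u) x‖ ^ 2) ^ (2 ^ r)) ^ 2 := by
      rw [← pow_mul]; congr 1
    have h5 : N ^ (2 ^ (r + 1) - 1) = (N ^ (2 ^ r - 1)) ^ 2 * N := by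
      rw [← pow_mul, ← pow_succ]
      congr 1
      have : 1 ≤ 2 ^ r := Nat.one_le_two_pow
      rw [pow_succ]
      omega
    rw [h4, h5]
    calc ((∑ x, ‖(Aᴴ *ᵥ u) x‖ ^ 2) ^ (2 ^ r)) ^ 2 ≤ (N ^ (2 ^ r - 1) * q) ^ 2 :=
          pow_le_pow_left₀ (by positivity) ih 2
      _ = (N ^ (2 ^ r - 1)) ^ 2 * q ^ 2 := by rw [mul_pow]
      _ ≤ (N ^ (2 ^ r - 1)) ^ 2 * (N * (star u ⬝ᵥ (((A * Aᴴ) ^ (2 ^ (r + 1))) *ᵥ u)).re) :=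
          mul_le_mul_of_nonneg_left h1 (by positivity)
      _ = _ := by ring

theorem OP_last (A : Matrix X X ℂ) (u : X → ℂ) (r : ℕ) :
    (star u ⬝ᵥ (((A * Aᴴ) ^ (2 ^ r)) *ᵥ u)).re ≤
      (∑ x, ‖u x‖ ^ 2) * (Matrix.trace ((A * Aᴴ) ^ (2 ^ r))).re := by
  have key : ∀ C : Matrix X X ℂ, (A * Aᴴ) ^ (2 ^ r) = C * Cᴴ →
      (star u ⬝ᵥ (((A * Aᴴ) ^ (2 ^ r)) *ᵥ u)).re ≤
      (∑ x, ‖u x‖ ^ 2) * (Matrix.trace ((A * Aᴴ) ^ (2 ^ r))).re := by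
    intro C hC
    rw [hC, OP_quad, OP_trace, Complex.ofReal_re, Complex.ofReal_re]
    exact OP_le_trace C u
  cases r with
  | zero => exact key A (by simp)
  | succ r =>
    refine key ((A * Aᴴ) ^ (2 ^ r)) ?_
    rw [OP_herm, ← pow_add]
    congr 1
    rw [pow_succ]; ring

theorem bilinear_le_trace (A : Matrix X X ℂ) (r : ℕ) (u v : X → ℂ) :
    ‖∑ x, ∑ y, conj (u x) * A x y * v y‖ ^ (2 * 2 ^ r) ≤
      ((∑ x, ‖u x‖ ^ 2) * (∑ y, ‖v y‖ ^ 2)) ^ (2 ^ r) *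
        (Matrix.trace ((A * Aᴴ) ^ (2 ^ r))).re := by
  set N : ℝ := ∑ x, ‖u x‖ ^ 2 with hN
  set M : ℝ := ∑ x, ‖v x‖ ^ 2 with hM
  have hN0 : 0 ≤ N := Finset.sum_nonneg fun _ _ => by positivity
  have hM0 : 0 ≤ M := Finset.sum_nonneg fun _ _ => by positivity
  have h1 : ∑ x, ∑ y, conj (u x) * A x y * v y = ∑ y, conj ((Aᴴ *ᵥ u) y) * v y := by
    rw [Finset.sum_comm]
    refine Finset.sum_congr rfl fun y _ => ?_
    simp only [Matrix.mulVec, dotProduct, Matrix.conjTranspose_apply, map_sum, map_mul,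
      Finset.sum_mul]
    refine Finset.sum_congr rfl fun x _ => ?_
    have : conj (star (A x y)) = A x y := Complex.conj_conj _
    rw [this]; ring
  have h2 : ‖∑ x, ∑ y, conj (u x) * A x y * v y‖ ^ 2 ≤ (∑ x, ‖(Aᴴ *ᵥ u) x‖ ^ 2) * M := by
    rw [h1]; exact OP_cs _ _
  have h3 := OP_chain A u r
  have h4 := OP_last A u r
  have hS0 : 0 ≤ ∑ x, ‖(Aᴴ *ᵥ u) x‖ ^ 2 := Finset.sum_nonneg fun _ _ => by positivity
  rw [pow_mul]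
  calc (‖∑ x, ∑ y, conj (u x) * A x y * v y‖ ^ 2) ^ 2 ^ r
      ≤ ((∑ x, ‖(Aᴴ *ᵥ u) x‖ ^ 2) * M) ^ 2 ^ r := pow_le_pow_left₀ (by positivity) h2 _
    _ = (∑ x, ‖(Aᴴ *ᵥ u) x‖ ^ 2) ^ 2 ^ r * M ^ 2 ^ r := mul_pow _ _ _
    _ ≤ (N ^ (2 ^ r - 1) * (N * (Matrix.trace ((A * Aᴴ) ^ (2 ^ r))).re)) * M ^ 2 ^ r := by
        refine mul_le_mul_of_nonneg_right ?_ (by positivity)
        exact h3.trans (mul_le_mul_of_nonneg_left h4 (by positivity))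
    _ = (N * M) ^ 2 ^ r * (Matrix.trace ((A * Aᴴ) ^ (2 ^ r))).re := by
        have h5 : N ^ (2 ^ r) = N ^ (2 ^ r - 1) * N := by
          rw [← pow_succ]
          congr 1
          have : 1 ≤ 2 ^ r := Nat.one_le_two_pow
          omega
        rw [mul_pow, h5]; ring
  exact le_rfl

end Pool.Agent.helper37.RQ
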